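import Pool.Agent.U865.LS.Cmp
import Pool.Agent.Y163.MW.WN

/-!
# From mw purity to the isomorphisms on the `E_2` term
-/

namespace Pool.Agent.U865.LS

universe u v

open Module Pool.Agent.Y143 Pool.Agent.Y163.MW

variable {Ω : Type u} [Field Ω] [CharZero Ω]

section abstract

variable [IsAlgClosed Ω] {V : Type v} [AddCommGroup V] [Module Ω V] [FiniteDimensional Ω V]

omit [CharZero Ω] in
/-- An eigenvector in a quotient of stable subspaces. -/
lemma exists_eigen_quot {Φ : Module.End Ω V} {K P : Submodule Ω V} (hK : ∀ x ∈ K, Φ x ∈ K)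
    (hP : ∀ x ∈ P, Φ x ∈ P) (hne : ¬ P ≤ K) :
    ∃ (α : Ω) (x : V), x ∈ P ∧ x ∉ K ∧ Φ x - α • x ∈ K := by
  let S : Module.End Ω (V ⧸ K) := K.mapQ K Φ hK
  have hS : ∀ x ∈ P.map K.mkQ, S x ∈ P.map K.mkQ := by
    rintro _ ⟨x, hx, rfl⟩
    exact ⟨Φ x, hP x hx, rfl⟩
  have hnt : Nontrivial (P.map K.mkQ) := by
    rw [Submodule.nontrivial_iff_ne_bot]
    intro h0
    apply hne
    intro x hx
    have h1 : K.mkQ x ∈ P.map K.mkQ := ⟨x, hx, rfl⟩
    rw [h0, Submodule.mem_bot] at h1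
    exact (Submodule.Quotient.mk_eq_zero K).1 h1
  obtain ⟨α, hα⟩ := Module.End.exists_eigenvalue (S.restrict hS)
  obtain ⟨⟨y, x, hx, rfl⟩, hy⟩ := hα.exists_hasEigenvector
  refine ⟨α, x, hx, ?_, ?_⟩
  · intro hxK
    apply hy.2
    apply Subtype.ext
    exact (Submodule.Quotient.mk_eq_zero K).2 hxK
  · have h1 := congrArg Subtype.val hy.apply_eq_smul
    have h2 : K.mkQ (Φ x) = α • K.mkQ x := h1
    rw [← (Submodule.Quotient.mk_eq_zero K)]
    show K.mkQ (Φ x - α • x) = 0
    rw [map_sub, map_smul, h2, sub_self]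

omit [IsAlgClosed Ω] in
/-- An eigenvalue on a quotient is an eigenvalue. -/
lemma exists_eigen_sub {Φ : Module.End Ω V} {F K P : Submodule Ω V} (hFK : F ≤ K) (hKP : K ≤ P)
    (hF : ∀ x ∈ F, Φ x ∈ F) (hK : ∀ x ∈ K, Φ x ∈ K) {α : Ω} {x : V} (hx : x ∈ P)
    (hxK : x ∉ K) (h : Φ x - α • x ∈ K) : ∃ y ∈ P, y ∉ F ∧ Φ y - α • y ∈ F := by
  let S : Module.End Ω (V ⧸ F) := F.mapQ F Φ hF
  obtain ⟨y', ⟨y, hy, rfl⟩, hy0, hyα⟩ := exists_eigen (S := S) (α := α)
    (Z := P.map F.mkQ) (B := K.map F.mkQ) (Submodule.map_mono hKP)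
    (by
      rintro _ ⟨x, hx, rfl⟩
      exact ⟨Φ x, hK x hx, rfl⟩) (x := F.mkQ x) ⟨x, hx, rfl⟩
    (by
      rintro ⟨z, hz, hzx⟩
      apply hxK
      have h1 : F.mkQ (x - z) = 0 := by rw [map_sub, hzx, sub_self]
      have h2 := hFK ((Submodule.Quotient.mk_eq_zero F).1 h1)
      have := K.add_mem h2 hz
      simpa using this)
    ⟨Φ x - α • x, h, by rw [map_sub, map_smul]; rfl⟩
  refine ⟨y, hy, ?_, ?_⟩
  · intro hyF
    exact hy0 ((Submodule.Quotient.mk_eq_zero F).2 hyF)
  · rw [← (Submodule.Quotient.mk_eq_zero F)]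
    show F.mkQ (Φ y - α • y) = 0
    have h2 : F.mkQ (Φ y) = α • F.mkQ y := hyα
    rw [map_sub, map_smul, h2, sub_self]

/-- Filtrations by weight are comparable. -/
lemma filtration_le {q : ℕ} (hq : 1 < q) {Φ : Module.End Ω V} {F G : ℤ → Submodule Ω V} (k : ℤ)
    (hF : Monotone F) (hFb : ∃ a, F a = ⊥) (hFs : ∀ a x, x ∈ F a → Φ x ∈ F a)
    (hFw : ∀ (a : ℤ) (α : Ω) (x : V), x ∈ F a → x ∉ F (a - 1) → Φ x - α • x ∈ F (a - 1) →
      IsWeilNumber q (k + a) α)
    (hG : Monotone G) (hGt : ∃ a, G a = ⊤) (hGs : ∀ a x, x ∈ G a → Φ x ∈ G a)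
    (hGw : ∀ (a : ℤ) (α : Ω) (x : V), x ∈ G a → x ∉ G (a - 1) → Φ x - α • x ∈ G (a - 1) →
      IsWeilNumber q (k + a) α) (b : ℤ) : F b ≤ G b := by
  obtain ⟨f, hf⟩ := hFb
  obtain ⟨t, ht⟩ := hGt
  have key : ∀ s : ℕ, ∀ c : ℤ, b ≤ c → t ≤ c + s → F b ≤ G c := by
    intro s
    induction s with
    | zero =>
      intro c _ htc
      have h1 := hG (show t ≤ c by simpa using htc)
      rw [ht] at h1
      exact le_top.trans h1
    | succ s ih =>
      intro c hbc htc
      have h1 := ih (c + 1) (by omega) (by push_cast at htc; omega)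
      have inner : ∀ r : ℕ, ∀ a : ℤ, a ≤ b → a ≤ f + r → F a ≤ G c := by
        intro r
        induction r with
        | zero =>
          intro a _ haf
          have h2 := hF (show a ≤ f by simpa using haf)
          rw [hf] at h2
          exact h2.trans bot_le
        | succ r ihr =>
          intro a hab haf
          have h2 := ihr (a - 1) (by omega) (by push_cast at haf; omega)
          by_contra hne
          have hPK : ¬ F a ≤ F a ⊓ G c := fun h => hne (h.trans inf_le_right)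
          obtain ⟨α, x, hx, hxK, hxα⟩ := exists_eigen_quot (Φ := Φ) (K := F a ⊓ G c) (P := F a)
            (fun x hx => ⟨hFs a x hx.1, hGs c x hx.2⟩) (fun x hx => hFs a x hx) hPK
          have hxG : x ∉ G c := fun h => hxK ⟨hx, h⟩
          have w1 := hGw (c + 1) α x (h1 (hF hab hx))
            (by rwa [show c + 1 - 1 = c by ring])
            (by rw [show c + 1 - 1 = c by ring]; exact hxα.2)
          obtain ⟨y, hy, hyF, hyα⟩ := exists_eigen_sub (Φ := Φ)
            (F := F (a - 1)) (K := F a ⊓ G c) (P := F a)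
            (le_inf (hF (by omega)) h2) inf_le_left
            (fun x hx => hFs _ x hx) (fun x hx => ⟨hFs a x hx.1, hGs c x hx.2⟩) hx hxK hxα
          have w2 := hFw a α y hy hyF hyα
          have w3 := weil_unique hq w1 w2
          omega
      exact inner (b - f).toNat b le_rfl (by omega)
  exact key (t - b).toNat b le_rfl (by omega)

end abstract

section generic

variable {Γ : Type} {n q : ℕ} (X : SemistableModel.{u, v} Ω Γ n q)

lemma finite_V (m : ℕ) : Module.Finite Ω (X.V m) := by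
  obtain ⟨b, hb⟩ := X.W_bot m
  obtain ⟨t, ht⟩ := X.W_top m
  have key : ∀ s : ℕ, (X.W m (b + s)).FG := by
    intro s
    induction s with
    | zero =>
      rw [Nat.cast_zero, add_zero, hb]
      exact Submodule.fg_bot
    | succ s ih =>
      have h1 : X.W m (b + (s + 1 : ℕ)) =
          (X.sp m (b + (s + 1 : ℕ))).map (LinearMap.fst Ω (X.V m) X.C) := by
        apply le_antisymm
        · intro v hv
          obtain ⟨x, hx⟩ := X.sp_left m _ v hv
          exact ⟨(v, x), hx, rfl⟩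
        · rintro _ ⟨⟨v, x⟩, hx, rfl⟩
          exact (X.sp_mem m _ v x hx).1
      rw [h1]
      apply Submodule.FG.map
      apply Submodule.fg_of_fg_map_of_fg_inf_ker (LinearMap.snd Ω (X.V m) X.C)
      · exact Submodule.FG.of_finite
      · refine (ih.map (LinearMap.inl Ω (X.V m) X.C)).of_le ?_
        rintro ⟨v, x⟩ ⟨hx, hx0⟩
        have hx0' : x = 0 := hx0
        subst hx0'
        refine ⟨v, ?_, rfl⟩
        have := (X.sp_ker m _ v 0 hx).2 (Submodule.zero_mem _)
        exact X.W_cast (by push_cast; ring) this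
  have h2 : X.W m (b + ((t - b).toNat : ℕ)) = ⊤ := by
    rw [eq_top_iff, ← ht]
    exact X.W_mono m (by omega)
  exact ⟨by rw [← h2]; exact key _⟩

/-- If `H^m` is mw pure, the monodromy filtration is the weight filtration and the powers of the
monodromy are injective on the `E_2` term. -/
lemma nInj_of_mwPure [IsAlgClosed Ω] (hq : 1 < q) (m : ℕ)
    (h : IsMWPure q m (X.actV m X.frob) (X.N m)) (a : ℕ) :
    NInj X.diff X.tot a ((m : ℤ) - n) := by
  obtain ⟨M, hM, hMs, hMw⟩ := h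
  have hfin := finite_V X m
  have hbot : ∃ a : ℤ, X.W m (m + a) = ⊥ := by
    obtain ⟨w, hw⟩ := X.W_bot m
    exact ⟨w - m, by rw [show (m : ℤ) + (w - m) = w by ring, hw]⟩
  have htop : ∃ a : ℤ, X.W m (m + a) = ⊤ := by
    obtain ⟨w, hw⟩ := X.W_top m
    exact ⟨w - m, by rw [show (m : ℤ) + (w - m) = w by ring, hw]⟩
  have hmono : Monotone fun a : ℤ => X.W m (m + a) := fun a b hab => X.W_mono m (by omega)
  have hMw' : ∀ (a : ℤ) (α : Ω) (x : X.V m), x ∈ M a → x ∉ M (a - 1) →
      X.actV m X.frob x - α • x ∈ M (a - 1) → IsWeilNumber q (m + a) α := by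
    intro a α x h1 h2 h3
    rw [add_comm]
    exact hMw a α x h1 h2 h3
  have heq : ∀ b : ℤ, M b = X.W m (m + b) := by
    intro b
    apply le_antisymm
    · exact filtration_le hq (Φ := X.actV m X.frob) (F := M) (G := fun a : ℤ => X.W m (m + a)) m
        hM.mono hM.bot hMs hMw' hmono htop (fun a x hx => W_stable X m _ x hx)
        (fun a α x h1 h2 h3 => W_weil X m a α x h1 h2 h3) b
    · exact filtration_le hq (Φ := X.actV m X.frob) (F := fun a : ℤ => X.W m (m + a)) (G := M) m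
        hmono hbot (fun a x hx => W_stable X m _ x hx)
        (fun a α x h1 h2 h3 => W_weil X m a α x h1 h2 h3) hM.mono hM.top hMs hMw' b
  rintro x ⟨hx1, hx2⟩
  rw [zc_eq'] at hx1
  rw [bd_eq'] at hx2 ⊢
  obtain ⟨v, hv⟩ := X.sp_right m ((m : ℤ) + a) x (by
    rwa [show (m : ℤ) - (m + a) = -a by ring, show (m : ℤ) + a = m - -a by ring])
  have h1 := X.N_pow_sp hv a le_rfl
  have h2 := (X.sp_ker m _ _ _ h1).2 (by
    rw [show (m : ℤ) - ((m : ℤ) + a - 2 * a) = a by ring,
      show (m : ℤ) + a - 2 * a = m - a by ring]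
    exact hx2)
  have h3 : (X.N m ^ a) v ∈ M (-a - 1) := by
    rw [heq]
    exact X.W_cast (by ring) h2
  have h4 : v ∈ M a := by
    rw [heq]
    exact (X.sp_mem m _ _ _ hv).1
  have h5 := hM.inj a v h4 h3
  rw [heq] at h5
  have h6 := (X.sp_ker m _ _ _ hv).1 (X.W_cast (by ring) h5)
  rwa [show (m : ℤ) - (m + a) = -a by ring, show (m : ℤ) + a = m - -a by ring] at h6

end generic

end Pool.Agent.U865.LS
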