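import Pool.Agent.U865.LS.Main
import Pool.Agent.U865.LS.Wf

/-!
# From `H^k` to `H^(k+2)`
-/

namespace Pool.Agent.U865.LS

universe u v

open Module Pool.Agent.Y143 Pool.Agent.X302.MW

variable {Ω : Type u} [Field Ω] [CharZero Ω] {Γ : Type} {n q : ℕ}

section fibre

variable (X : SpecialFibre.{u, v} Ω Γ n q)

/-- The critical condition for the restriction `H^w(Y^(a+1)) → H^w(Y^(a+2))`. -/
def Crit (a : ℕ) (w : ℤ) : Prop :=
  ∀ y ∈ X.gr a w, X.gys a (X.res a y) = 0 → (Pi.single (a + 1) (X.res a y) : X.C) ∈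
    X.coboundaries (-((a : ℤ) + 1)) (w + 2 * ((a : ℤ) + 1))

lemma diff_neg_single (a : ℕ) (u : X.H (a + 1)) (hR : X.res (a + 1) u = 0)
    (hG : X.gys a u = 0) : X.diff (-((a : ℤ) + 1)) (Pi.single (a + 1) u : X.C) = 0 := by
  have h0 : X.resC (Pi.single (a + 1) u) + X.gysC (Pi.single (a + 1) u) = 0 := by
    funext b
    rw [Pi.add_apply, X.gysC_apply, Pi.zero_apply]
    have h1 : X.resC (Pi.single (a + 1) u) b = 0 := by
      cases b with
      | zero => rw [X.resC_zero]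
      | succ b =>
        rw [X.resC_succ]
        by_cases hb : b = a + 1
        · subst hb
          rw [Pi.single_eq_same, hR]
        · rw [Pi.single_eq_of_ne hb, map_zero]
    have h2 : X.gys b ((Pi.single (a + 1) u : X.C) (b + 1)) = 0 := by
      by_cases hb : b = a
      · subst hb
        rw [Pi.single_eq_same, hG]
      · rw [Pi.single_eq_of_ne (by omega), map_zero]
    rw [h1, h2, add_zero]
  rw [X.diff_apply, h0, map_zero]

/-- Injectivity on the `E_2` term implies the critical condition. -/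
lemma crit_of_nInj (a m : ℕ) {w : ℤ} (hw : w = n - m - ((a : ℤ) + 1))
    (h : NInj X.diff X.tot ((a : ℤ) + 1) (-m)) : Crit X a w := by
  intro y hy hG
  have hE : (Pi.single a y : X.C) ∈ X.E₁ a w := by
    apply X.single_mem
    · exact ⟨by rw [Nat.abs_cast], ⟨0, by ring⟩⟩
    · rwa [show w + (a : ℤ) - a = w by ring]
  have h1 : (Pi.single (a + 1) (X.res a y) : X.C) ∈ Bd X.diff X.tot ((a : ℤ) + 1) (-m) := by
    refine ⟨Pi.single a y, ?_, ?_⟩
    · exact X.mem_E₁_cast (by ring) (by rw [hw]; ring) hE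
    · rw [show (a : ℤ) + 1 - 1 = a by ring]
      exact diff_single X a y
  have hE' : (Pi.single (a + 1) (X.res a y) : X.C) ∈
      X.E₁ (-((a : ℤ) + 1)) (w + 2 * ((a : ℤ) + 1)) := by
    apply X.single_mem
    · refine ⟨?_, ⟨(a : ℤ) + 1, by push_cast; ring⟩⟩
      rw [abs_neg, abs_of_nonneg (by positivity)]
      push_cast
      rfl
    · rw [show w + 2 * ((a : ℤ) + 1) + -((a : ℤ) + 1) - ((a + 1 : ℕ) : ℤ) = w by push_cast; ring]
      exact X.res_gr a _ _ hy
  have h2 : (Pi.single (a + 1) (X.res a y) : X.C) ∈ Zc X.diff X.tot (-((a : ℤ) + 1)) (-m) :=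
    ⟨X.mem_E₁_cast rfl (by rw [hw]; ring) hE', diff_neg_single X a _ (X.res_res a y) hG⟩
  have h3 := h ⟨h2, h1⟩
  rw [X.bd_eq, show (n : ℤ) + -(m : ℤ) - -((a : ℤ) + 1) = w + 2 * ((a : ℤ) + 1) by
    rw [hw]; ring] at h3
  exact h3

lemma lefC_single (a : ℕ) (u : X.H a) :
    X.lefC (Pi.single a u) = (Pi.single a (X.lef a u) : X.C) := by
  funext b
  rw [X.lefC_apply]
  by_cases hb : b = a
  · subst hb
    rw [Pi.single_eq_same, Pi.single_eq_same]
  · rw [Pi.single_eq_of_ne hb, Pi.single_eq_of_ne hb, map_zero]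

/-- The restriction of every class in `H^(w+2)(Y^(a+1))` is the restriction of `L x + τ z` with `x`
in `H^w(Y^(a+1))` and `z` in `H^w(Y^(a+2))`. -/
def Steps (a : ℕ) (w : ℤ) : Prop :=
  ∀ y ∈ X.gr a (w + 2), ∃ x ∈ X.gr a w, ∃ z ∈ X.gr (a + 1) w,
    X.res a y = X.res a (X.lef a x + X.gys a z)

/-- The critical condition propagates. -/
lemma crit_step {a w : ℕ} (hn : a + 1 + (w + 2) ≤ n) (hs : Steps X a w) (h : Crit X a w) :
    Crit X a (w + 2) := by
  intro y hy hG
  obtain ⟨x, hx, z, hz, hxz⟩ := hs y hy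
  have hz' : X.res a (X.gys a z) = - X.gys (a + 1) (X.res (a + 1) z) :=
    add_eq_zero_iff_eq_neg.1 (X.res_gys a z)
  have hL : (X.lef a ^ 1) (X.gys a (X.res a x)) = 0 := by
    rw [hxz, map_add, map_add, gys_res_gys, add_zero, X.res_lef, X.gys_lef] at hG
    rw [pow_one]
    exact hG
  have h0 : X.gys a (X.res a x) = 0 := by
    refine lef_pow_inj X a 1 (w + 2) (by omega) ?_ hL
    exact gr_cast X (by push_cast; ring) (X.gys_gr a _ _ (X.res_gr a _ _ hx))
  have h1 := h x hx h0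
  have h2 : (Pi.single (a + 1) (X.lef (a + 1) (X.res a x)) : X.C) ∈
      X.coboundaries (-((a : ℤ) + 1)) ((w : ℤ) + 2 + 2 * ((a : ℤ) + 1)) := by
    rw [← lefC_single]
    obtain ⟨y', hy', hyy⟩ := h1
    refine ⟨X.lefC y', X.mem_E₁_cast rfl (by ring) (X.lefC_mem hy'), ?_⟩
    rw [X.diff_lefC, hyy]
  have h3 : (Pi.single (a + 1) (X.gys (a + 1) (- X.res (a + 1) z)) : X.C) ∈
      X.coboundaries (-((a : ℤ) + 1)) ((w : ℤ) + 2 + 2 * ((a : ℤ) + 1)) := by
    apply single_mem_cobound' X a ((w : ℤ) + 2)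
    · exact gr_cast X (by ring) (Submodule.neg_mem _ (X.res_gr (a + 1) _ _ hz))
    · rw [map_neg, X.res_res, neg_zero]
  have h4 : X.res a y = X.lef (a + 1) (X.res a x) + X.gys (a + 1) (- X.res (a + 1) z) := by
    rw [hxz, map_add, X.res_lef, hz', map_neg]
  rw [h4, Pi.single_add]
  exact Submodule.add_mem _ h2 h3

end fibre

variable (X : Degeneration.{u, v} Ω Γ n q)

lemma iso_of_crit (a m : ℕ) {w : ℤ} (hw : w = n - m - ((a : ℤ) + 1))
    (h : Crit X.toSpecialFibre a w) :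
    NInj X.diff X.tot ((a : ℤ) + 1) (-m) ∧ NSurj X.diff X.tot ((a : ℤ) + 1) (-m) := by
  have h1 := nInj_of X.toSpecialFibre a m hw h
  have h2 := X.lefDual.good_of_inj X.lefComplex X.lefComplex ((a : ℤ) + 1) (by omega) _ h1 h1
  exact ⟨h2.inj, h2.surj⟩

/-- **From `H^k` to `H^(k+2)`.** -/
theorem mwPure_add_two [IsAlgClosed Ω] (hq : 1 < q) (A : DivisorClasses X.toSpecialFibre) (k : ℕ)
    (hk : k + 2 ≤ n) (h : IsMWPure q k (X.actV k X.frob) (X.N k))
    (hs : ∀ a w : ℕ, a + 1 + w = k → Steps X.toSpecialFibre a w ∨ ∀ χ, Controlled A a (w + 2) χ) :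
    IsMWPure q (k + 2 : ℕ) (X.actV (k + 2) X.frob) (X.N (k + 2)) := by
  obtain ⟨m, hm⟩ : ∃ m, n = k + 2 + m := ⟨n - (k + 2), by omega⟩
  have key : ∀ a : ℕ, 1 ≤ a → NInj X.diff X.tot a (((k + 2 : ℕ) : ℤ) - n) ∧
      NSurj X.diff X.tot a (((k + 2 : ℕ) : ℤ) - n) := by
    intro a ha
    obtain ⟨b, rfl⟩ : ∃ b, a = b + 1 := ⟨a - 1, by omega⟩
    by_cases hb : b + 1 ≤ k
    · obtain ⟨w, hw⟩ : ∃ w, k = b + 1 + w := ⟨k - (b + 1), by omega⟩
      rcases hs b w hw.symm with h1 | h1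
      · have h2 := nInj_of_mwPure X.toSemistableModel hq k h (b + 1)
        push_cast at h2 ⊢
        rw [show (k : ℤ) - n = -((m + 2 : ℕ) : ℤ) by push_cast [hm]; ring] at h2
        rw [show (k : ℤ) + 2 - n = -(m : ℤ) by push_cast [hm]; ring]
        have h3 := crit_of_nInj X.toSpecialFibre b (m + 2) (w := w)
          (by push_cast [hm, hw]; ring) h2
        exact iso_of_crit X b m (w := (w : ℤ) + 2) (by push_cast [hm, hw]; ring)
          (crit_step X.toSpecialFibre (by omega) h1 h3)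
      · have h2 := iso_at X A (k + 2) (by omega) b (fun w' h3 h4 => by
          obtain rfl : w' = w + 2 := by omega
          exact h1)
        push_cast at h2 ⊢
        exact h2
    · have h2 := iso_at X A (k + 2) (by omega) b (fun w' h3 h4 => by omega)
      push_cast at h2 ⊢
      exact h2
  exact (pureFrom_of X.toSemistableModel (k + 2) 0 (fun a _ h2 => (key a h2).1)
    (fun a _ h2 => (key a h2).2)).isMWPure

end Pool.Agent.U865.LS
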