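import Pool.Agent.U865.LS.Third
import Pool.Agent.Y143.Mon

/-!
# Comparison of the monodromy filtration and of the weight filtration
-/

namespace Pool.Agent.U865.LS

universe u v

open Module Pool.Agent.Y143

section abstract

variable {Ω : Type u} [Field Ω] {V : Type v} [AddCommGroup V] [Module Ω V]

lemma pow_mem {N : Module.End Ω V} {W : ℤ → Submodule Ω V}
    (h : ∀ w x, x ∈ W w → N x ∈ W (w - 2)) (j : ℕ) {w : ℤ} {x : V} (hx : x ∈ W w) :
    (N ^ j) x ∈ W (w - 2 * j) := by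
  induction j with
  | zero => simpa using hx
  | succ j ih =>
    rw [pow_succ', Module.End.mul_apply]
    have := h _ _ ih
    rwa [show w - 2 * (j : ℤ) - 2 = w - 2 * ((j + 1 : ℕ) : ℤ) by push_cast; ring] at this

/-- An operator which lowers a finite filtration is nilpotent. -/
lemma nilp_of_filtration {N : Module.End Ω V} {W : ℤ → Submodule Ω V} (hmono : Monotone W)
    (hbot : ∃ a, W a = ⊥) (htop : ∃ a, W a = ⊤) (h : ∀ w x, x ∈ W w → N x ∈ W (w - 2)) :
    ∃ r : ℕ, N ^ r = 0 := by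
  obtain ⟨a, ha⟩ := hbot
  obtain ⟨b, hb⟩ := htop
  refine ⟨(b - a).toNat, ?_⟩
  ext x
  have h1 : x ∈ W b := by rw [hb]; exact Submodule.mem_top
  have h2 := pow_mem h (b - a).toNat h1
  have h3 := hmono (show b - 2 * (((b - a).toNat : ℕ) : ℤ) ≤ a by omega) h2
  rw [ha, Submodule.mem_bot] at h3
  rw [h3, LinearMap.zero_apply]

/-- If `N ^ a` induces isomorphisms on the graded pieces of `W` for all `a ≥ i`, then `W` agrees with
the monodromy filtration `M` in the outer degrees. -/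
lemma filtrations_agree {N : Module.End Ω V} {M W : ℤ → Submodule Ω V}
    (hM : IsMonodromyFiltration N M) (hmono : Monotone W) (hbot : ∃ a, W a = ⊥)
    (htop : ∃ a, W a = ⊤) (hmap : ∀ w x, x ∈ W w → N x ∈ W (w - 2)) (i : ℕ)
    (hinj : ∀ a : ℕ, i ≤ a → 1 ≤ a → ∀ x, x ∈ W a → (N ^ a) x ∈ W (-a - 1) → x ∈ W (a - 1))
    (hsurj : ∀ a : ℕ, i ≤ a → 1 ≤ a → ∀ y, y ∈ W (-a) → ∃ x ∈ W a, y - (N ^ a) x ∈ W (-a - 1)) :
    ∀ a : ℕ, i ≤ a → 1 ≤ a → M (-a) = W (-a) ∧ M (a - 1) = W (a - 1) := by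
  obtain ⟨b1, hb1⟩ := hM.bot
  obtain ⟨b2, hb2⟩ := hbot
  obtain ⟨t1, ht1⟩ := hM.top
  obtain ⟨t2, ht2⟩ := htop
  obtain ⟨B, hB⟩ : ∃ B : ℕ, ∀ a : ℕ, B ≤ a → -(a : ℤ) ≤ b1 ∧ -(a : ℤ) ≤ b2 ∧ t1 ≤ (a : ℤ) - 1 ∧
      t2 ≤ (a : ℤ) - 1 :=
    ⟨(|b1| + |b2| + |t1| + |t2| + 1).toNat, fun a ha => by
      have h1 := neg_abs_le b1
      have h2 := neg_abs_le b2
      have h3 := le_abs_self t1
      have h4 := le_abs_self t2
      have h5 := abs_nonneg b1
      have h6 := abs_nonneg b2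
      have h7 := abs_nonneg t1
      have h8 := abs_nonneg t2
      omega⟩
  have key : ∀ t a : ℕ, B ≤ a + t → i ≤ a → 1 ≤ a →
      M (-a) = W (-a) ∧ M (a - 1) = W (a - 1) := by
    intro t
    induction t with
    | zero =>
      intro a ha _ _
      obtain ⟨h1, h2, h3, h4⟩ := hB a (by simpa using ha)
      constructor
      · rw [eq_bot_iff.2 ((hM.mono h1).trans hb1.le), eq_bot_iff.2 ((hmono h2).trans hb2.le)]
      · rw [eq_top_iff.2 (ht1.ge.trans (hM.mono h3)), eq_top_iff.2 (ht2.ge.trans (hmono h4))]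
    | succ t ih =>
      intro a ha hi h1
      obtain ⟨e1, e2⟩ := ih (a + 1) (by omega) (by omega) (by omega)
      rw [show -((a + 1 : ℕ) : ℤ) = -(a : ℤ) - 1 by push_cast; ring] at e1
      rw [show ((a + 1 : ℕ) : ℤ) - 1 = a by push_cast; ring] at e2
      constructor
      · apply le_antisymm
        · intro y hy
          obtain ⟨x, hx, hxy⟩ := hM.surj a y hy
          rw [e2] at hx
          rw [e1] at hxy
          have g1 := pow_mem hmap a hx
          rw [show (a : ℤ) - 2 * a = -a by ring] at g1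
          have g2 := Submodule.add_mem _ (hmono (by omega) hxy) g1
          simpa using g2
        · intro y hy
          obtain ⟨x, hx, hxy⟩ := hsurj a hi h1 y hy
          rw [← e2] at hx
          rw [← e1] at hxy
          have g1 := pow_mem hM.map a hx
          rw [show (a : ℤ) - 2 * a = -a by ring] at g1
          have g2 := Submodule.add_mem _ (hM.mono (by omega) hxy) g1
          simpa using g2
      · apply le_antisymm
        · intro x hx
          have g1 := pow_mem hM.map a hx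
          rw [show (a : ℤ) - 1 - 2 * a = -a - 1 by ring, e1] at g1
          have g2 := hM.mono (show (a : ℤ) - 1 ≤ a by omega) hx
          rw [e2] at g2
          exact hinj a hi h1 x g2 g1
        · intro x hx
          have g1 := pow_mem hmap a hx
          rw [show (a : ℤ) - 1 - 2 * a = -a - 1 by ring, ← e1] at g1
          have g2 := hmono (show (a : ℤ) - 1 ≤ a by omega) hx
          rw [← e2] at g2
          exact hM.inj a x g2 g1
  intro a hi h1
  exact key B a (by omega) hi h1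

end abstract

section generic

variable {Ω : Type u} [Field Ω] [CharZero Ω] {Γ : Type} {n q : ℕ}
  (X : SemistableModel.{u, v} Ω Γ n q)

lemma W_map (m : ℕ) (w : ℤ) (v : X.V m) (hv : v ∈ X.W m w) : X.N m v ∈ X.W m (w - 2) := by
  obtain ⟨x, hx⟩ := X.sp_left m _ v hv
  exact (X.sp_mem m _ _ _ (X.sp_N m _ _ _ hx)).1

lemma W_stable (m : ℕ) (w : ℤ) (v : X.V m) (hv : v ∈ X.W m w) :
    X.actV m X.frob v ∈ X.W m w := by
  obtain ⟨x, hx⟩ := X.sp_left m _ v hv
  exact (X.sp_mem m _ _ _ (X.sp_act m _ v x X.frob hx)).1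

lemma bd_eq' (m : ℕ) (a : ℤ) :
    Bd X.diff X.tot a ((m : ℤ) - n) = X.coboundaries a (m - a) := by
  rw [X.bd_eq]
  congr 1
  ring

lemma zc_eq' (m : ℕ) (a : ℤ) :
    Zc X.diff X.tot a ((m : ℤ) - n) = X.cocycles a (m - a) := by
  rw [X.zc_eq]
  congr 1
  ring

lemma W_inj (m a : ℕ) (hinj : NInj X.diff X.tot a ((m : ℤ) - n)) (v : X.V m)
    (hv : v ∈ X.W m (m + a)) (hN : (X.N m ^ a) v ∈ X.W m (m + (-a - 1))) :
    v ∈ X.W m (m + (a - 1)) := by
  obtain ⟨x, hx⟩ := X.sp_left m _ v hv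
  have h1 := X.N_pow_sp hx a le_rfl
  have h2 := (X.sp_ker m _ _ _ h1).1 (X.W_cast (by ring) hN)
  have h3 := (X.sp_mem m _ _ _ hx).2
  rw [show (m : ℤ) - ((m : ℤ) + a - 2 * a) = a by ring,
    show (m : ℤ) + a - 2 * a = m - a by ring, ← bd_eq'] at h2
  have h4 : x ∈ Zc X.diff X.tot (-a) ((m : ℤ) - n) := by
    rw [zc_eq']
    rwa [show (m : ℤ) - (m + a) = -a by ring, show (m : ℤ) + a = m - -a by ring] at h3
  have h5 := hinj ⟨h4, h2⟩
  rw [bd_eq'] at h5
  have h6 := (X.sp_ker m _ _ _ hx).2 (by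
    rwa [show (m : ℤ) - (m + a) = -a by ring, show (m : ℤ) + a = m - -a by ring])
  exact X.W_cast (by ring) h6

lemma W_surj (m a : ℕ) (hsurj : NSurj X.diff X.tot a ((m : ℤ) - n)) (v : X.V m)
    (hv : v ∈ X.W m (m + -a)) :
    ∃ v' ∈ X.W m (m + a), v - (X.N m ^ a) v' ∈ X.W m (m + (-a - 1)) := by
  obtain ⟨y, hy⟩ := X.sp_left m _ v hv
  have h1 := (X.sp_mem m _ _ _ hy).2
  rw [show (m : ℤ) - (m + -a) = a by ring, show (m : ℤ) + -a = m - a by ring, ← zc_eq'] at h1
  obtain ⟨x, hx, b, hb, hxb⟩ := Submodule.mem_sup.1 (hsurj h1)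
  rw [zc_eq'] at hx
  obtain ⟨v', hv'⟩ := X.sp_right m ((m : ℤ) + a) x (by
    rwa [show (m : ℤ) - (m + a) = -a by ring, show (m : ℤ) + a = m - -a by ring])
  refine ⟨v', (X.sp_mem m _ _ _ hv').1, ?_⟩
  have h2 := X.N_pow_sp hv' a le_rfl
  have h3 : (v - (X.N m ^ a) v', b) ∈ X.sp m ((m : ℤ) + -a) := by
    have h4 := Submodule.sub_mem _ hy
      (X.sp_cast (show (m : ℤ) + a - 2 * a = m + -a by ring) h2)
    have h5 : b = y - x := by rw [← hxb]; abel
    rw [h5]
    exact h4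
  have h6 := (X.sp_ker m _ _ _ h3).2 (by
    rw [show (m : ℤ) - (m + -a) = a by ring, show (m : ℤ) + -a = m - a by ring, ← bd_eq']
    exact hb)
  exact X.W_cast (by ring) h6

/-- The eigenvalues of the Frobenius on the graded pieces of the weight filtration. -/
lemma W_weil (m : ℕ) (a : ℤ) (α : Ω) (v : X.V m) (hv : v ∈ X.W m (m + a))
    (hv' : v ∉ X.W m (m + (a - 1))) (hα : X.actV m X.frob v - α • v ∈ X.W m (m + (a - 1))) :
    IsWeilNumber q (m + a) α := by
  obtain ⟨x, hx⟩ := X.sp_left m _ v hv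
  have h1 := (X.sp_mem m _ _ _ hx).2
  have h2 : x ∉ X.coboundaries (m - (m + a)) (m + a) := by
    intro hc
    exact hv' (X.W_cast (by ring) ((X.sp_ker m _ _ _ hx).2 hc))
  have h3 : (X.actV m X.frob v - α • v, X.actC (m - (m + a)) X.frob x - α • x) ∈
      X.sp m (m + a) := by
    have h4 := Submodule.sub_mem _ (X.sp_act m _ v x X.frob hx) (Submodule.smul_mem _ α hx)
    exact h4
  have h5 : X.actC (m - (m + a)) X.frob x - α • x ∈ X.coboundaries (m - (m + a)) (m + a) :=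
    (X.sp_ker m _ _ _ h3).1 (X.W_cast (by ring) hα)
  obtain ⟨y, hy, hy0, hyα⟩ := exists_eigen (S := X.actC (m - (m + a)) X.frob)
    (X.bd_le_zc _ _) (fun x hx => X.actC_bd _ _ _ hx) h1 h2 h5
  exact X.weil_E₁ hy.1 hy0 hyα

/-- From isomorphisms on the `E_2` term to purity. -/
theorem pureFrom_of (m i : ℕ)
    (hinj : ∀ a : ℕ, i ≤ a → 1 ≤ a → NInj X.diff X.tot a ((m : ℤ) - n))
    (hsurj : ∀ a : ℕ, i ≤ a → 1 ≤ a → NSurj X.diff X.tot a ((m : ℤ) - n)) :
    PureFrom q m (X.actV m X.frob) (X.N m) i := by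
  have hbot : ∃ a : ℤ, X.W m (m + a) = ⊥ := by
    obtain ⟨w, hw⟩ := X.W_bot m
    exact ⟨w - m, by rw [show (m : ℤ) + (w - m) = w by ring, hw]⟩
  have htop : ∃ a : ℤ, X.W m (m + a) = ⊤ := by
    obtain ⟨w, hw⟩ := X.W_top m
    exact ⟨w - m, by rw [show (m : ℤ) + (w - m) = w by ring, hw]⟩
  have hmono : Monotone fun a : ℤ => X.W m (m + a) := fun a b hab => X.W_mono m (by omega)
  have hmap : ∀ (w : ℤ) (x : X.V m), x ∈ X.W m (m + w) → X.N m x ∈ X.W m (m + (w - 2)) := by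
    intro w x hx
    exact X.W_cast (by ring) (W_map X m _ x hx)
  refine ⟨⟨_, isMonodromyFiltration_monFil
    (nilp_of_filtration (W := fun a : ℤ => X.W m (m + a)) hmono hbot htop hmap)⟩, ?_⟩
  intro M hM b hb
  have hagree := filtrations_agree (W := fun a : ℤ => X.W m (m + a)) hM hmono hbot htop hmap i
    (fun a h1 h2 x hx hNx => W_inj X m a (hinj a h1 h2) x hx hNx)
    (fun a h1 h2 y hy => W_surj X m a (hsurj a h1 h2) y hy)
  have heq : M b = X.W m (m + b) ∧ M (b - 1) = X.W m (m + (b - 1)) := by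
    rcases lt_trichotomy b 0 with h0 | h0 | h0
    · rw [abs_of_neg h0] at hb
      obtain ⟨a, ha⟩ := Int.eq_ofNat_of_zero_le (show 0 ≤ -b by omega)
      have e1 := (hagree a (by omega) (by omega)).1
      have e2 := (hagree (a + 1) (by omega) (by omega)).1
      rw [show -(a : ℤ) = b by omega] at e1
      rw [show -((a + 1 : ℕ) : ℤ) = b - 1 by push_cast; omega] at e2
      exact ⟨e1, e2⟩
    · subst h0
      rw [abs_zero] at hb
      have e1 := hagree 1 (by omega) le_rfl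
      have e2 := e1.1
      have e3 := e1.2
      rw [show ((1 : ℕ) : ℤ) - 1 = 0 by norm_num] at e3
      rw [show -((1 : ℕ) : ℤ) = 0 - 1 by norm_num] at e2
      exact ⟨e3, e2⟩
    · rw [abs_of_pos h0] at hb
      obtain ⟨a, ha⟩ := Int.eq_ofNat_of_zero_le h0.le
      subst ha
      have e1 := (hagree a (by omega) (by omega)).2
      have e2 := (hagree (a + 1) (by omega) (by omega)).2
      rw [show ((a + 1 : ℕ) : ℤ) - 1 = a by push_cast; ring] at e2
      exact ⟨e2, e1⟩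
  rw [heq.1, heq.2]
  exact ⟨fun x hx => W_stable X m _ x hx, fun x hx => W_stable X m _ x hx,
    fun α x hx hx' hα => W_weil X m b α x hx hx' hα⟩

/-- Purity of all graded pieces. -/
lemma PureFrom.isMWPure {V : Type v} [AddCommGroup V] [Module Ω V] {q : ℕ} {k : ℤ}
    {Φ N : Module.End Ω V} (h : PureFrom q k Φ N 0) : IsMWPure q k Φ N := by
  obtain ⟨⟨M, hM⟩, h2⟩ := h
  refine ⟨M, hM, fun a x hx => (h2 M hM a (by simp)).1 x hx, fun a α x hx hx' hα => ?_⟩
  have := (h2 M hM a (by simp)).2.2 α x hx hx' hα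
  rwa [add_comm] at this

end generic

end Pool.Agent.U865.LS
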