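import Pool.Agent.U865.LS.Defs
import Pool.Agent.X302.MW.Fin

/-!
# The critical classes
-/

namespace Pool.Agent.U865.LS

universe u v

open Module Pool.Agent.Y143 Pool.Agent.X302.MW

variable {Ω : Type u} [Field Ω] [CharZero Ω] {Γ : Type} {n q : ℕ}

section basic

variable (X : SpecialFibre.{u, v} Ω Γ n q)

lemma gr_cast {a : ℕ} {m m' : ℤ} (h : m = m') {x : X.H a} (hx : x ∈ X.gr a m) : x ∈ X.gr a m' := by
  subst h; exact hx

/-- `L ^ s` is injective on `H^m(Y^(a+1))` for `m + s ≤ dim Y^(a+1)`. -/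
lemma lef_pow_inj (a s m : ℕ) (h : a + m + s ≤ n) {x : X.H a} (hx : x ∈ X.gr a m)
    (h0 : (X.lef a ^ s) x = 0) : x = 0 := by
  obtain ⟨t, ht⟩ : ∃ t, n = a + m + s + t := ⟨n - (a + m + s), by omega⟩
  apply X.lef_inj a (t + s) x (gr_cast X (by push_cast [ht]; ring) hx)
  rw [pow_add, Module.End.mul_apply, h0, map_zero]

/-- The Gysin image of the restriction of a Gysin image vanishes. -/
lemma gys_res_gys (a : ℕ) (z : X.H (a + 1)) : X.gys a (X.res a (X.gys a z)) = 0 := by
  have h := X.res_gys a z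
  rw [add_eq_zero_iff_eq_neg] at h
  rw [h, map_neg, X.gys_gys, neg_zero]

end basic

section equivariance

variable {C : Type*} [AddCommGroup C] [Module Ω C] {C' : Type*} [AddCommGroup C'] [Module Ω C']

omit [CharZero Ω] in
/-- An equivariant map up to factors maps weight spaces to weight spaces. -/
lemma map_Wt' {ι : Type*} {T : ι → Module.End Ω C} {T' : ι → Module.End Ω C'} {c : ι → Ω}
    (f : C →ₗ[Ω] C') (hf : ∀ g x, T' g (f x) = c g • f (T g x)) {χ : ι → Ω} {x : C}
    (hx : x ∈ Wt T χ) : f x ∈ Wt T' (fun g => c g * χ g) := by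
  rw [mem_Wt] at hx ⊢
  intro g
  obtain ⟨k, hk⟩ := hx g
  refine ⟨k, ?_⟩
  have h1 : ∀ (k : ℕ) (y : C), ((T' g - (c g * χ g) • (1 : Module.End Ω C')) ^ k) (f y) =
      (c g) ^ k • f (((T g - χ g • (1 : Module.End Ω C)) ^ k) y) := by
    intro k
    induction k with
    | zero => intro y; simp
    | succ k ih =>
      intro y
      have e : (T' g - (c g * χ g) • (1 : Module.End Ω C')) (f y) =
          c g • f ((T g - χ g • (1 : Module.End Ω C)) y) := by
        simp only [LinearMap.sub_apply, LinearMap.smul_apply, Module.End.one_apply, hf, map_sub,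
          map_smul, smul_sub, mul_smul]
      rw [pow_succ, Module.End.mul_apply, e, map_smul, ih, smul_smul, pow_succ (c g),
        pow_succ (T g - χ g • (1 : Module.End Ω C)), Module.End.mul_apply, mul_comm (c g)]
  rw [h1, hk, map_zero, smul_zero]

end equivariance

section weights

variable (X : SpecialFibre.{u, v} Ω Γ n q)

lemma comm_act (a : ℕ) (g h : Γ) : Commute (X.act a g) (X.act a h) := by
  ext x
  exact X.act_comm a g h x

lemma res_Wt (a : ℕ) {χ : Γ → Ω} {x : X.H a} (hx : x ∈ Wt (X.act a) χ) :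
    X.res a x ∈ Wt (X.act (a + 1)) χ := by
  have := map_Wt' (T' := X.act (a + 1)) (c := fun _ => (1 : Ω)) (X.res a)
    (fun g x => by rw [X.res_act, one_smul]) hx
  simpa using this

lemma pair_act_lef (a t : ℕ) (g : Γ) (x y : X.H a) :
    X.pair a (X.act a g x) ((X.lef a ^ t) y) =
      (X.cyc g : Ω) ^ ((n : ℤ) - a - t) * X.pair a x ((X.lef a ^ t) (X.act a (X.tr g) y)) := by
  have h1 : ∀ (t : ℕ) (y : X.H a), X.act a (X.tr g) ((X.lef a ^ t) y) =
      ((X.cyc g : Ω)⁻¹) ^ t • (X.lef a ^ t) (X.act a (X.tr g) y) := by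
    intro t
    induction t with
    | zero => intro y; simp
    | succ t ih =>
      intro y
      rw [pow_succ', Module.End.mul_apply, X.lef_act, ih, X.cyc_tr, Units.val_inv_eq_inv_val,
        map_smul, smul_smul, ← pow_succ', Module.End.mul_apply]
  rw [X.act_pair, h1, map_smul, smul_eq_mul, ← mul_assoc]
  congr 1
  rw [Units.val_zpow_eq_zpow_val, inv_pow, ← zpow_natCast, ← zpow_neg,
    ← zpow_add₀ (Units.ne_zero _), sub_eq_add_neg ((n : ℤ) - a)]

variable [IsAlgClosed Ω]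

/-- If all classes in `H^w(Y^(a+2))` of the dual character extend, there are no classes of character
`χ` killed by the restriction and by the Gysin map. -/
lemma eq_zero_of_extend {a w : ℕ} {χ : Γ → Ω} (hn : a + 1 + w ≤ n)
    (h : ∀ u ∈ Part X (a + 1) w (dualAt X w χ), ∃ x ∈ X.gr a w,
        ∃ z ∈ X.gr (a + 2) ((w : ℤ) - 2), u = X.res a x + X.gys (a + 1) z) {u : X.H (a + 1)}
    (hu : u ∈ Part X (a + 1) w χ) (hR : X.res (a + 1) u = 0) (hG : X.gys a u = 0) : u = 0 := by
  obtain ⟨t, ht⟩ : ∃ t, n = a + 1 + w + t := ⟨n - (a + 1 + w), by omega⟩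
  apply eq_zero_of_orth X (a + 1) hu.1
  intro b hb
  obtain ⟨b0, hb0, rfl⟩ := X.lef_surj (a + 1) t b (gr_cast X (by push_cast [ht]; ring) hb)
  have hb1 : b0 ∈ X.gr (a + 1) w := gr_cast X (by push_cast [ht]; ring) hb0
  suffices hh : b0 ∈ LinearMap.ker ((X.pair (a + 1) u) ∘ₗ (X.lef (a + 1) ^ t)) from hh
  apply mem_of_prj_mem (comm_act X (a + 1))
  intro ν
  have h1 : prj (X.act (a + 1)) (comm_act X (a + 1)) ν b0 ∈ X.gr (a + 1) w :=
    prj_stable (comm_act X (a + 1)) (fun g x hx => X.act_gr (a + 1) w g x hx) ν hb1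
  have h2 := prj_mem (comm_act X (a + 1)) ν b0
  set b1 := prj (X.act (a + 1)) (comm_act X (a + 1)) ν b0
  show X.pair (a + 1) u ((X.lef (a + 1) ^ t) b1) = 0
  by_cases hν : ν = dualAt X w χ
  · subst hν
    obtain ⟨x, hx, z, hz, hxz⟩ := h b1 ⟨h1, h2⟩
    rw [hxz, map_add, map_add, ← res_lef_pow, ← gys_lef_pow, ← X.pair_gys, hG, ← X.pair_res, hR,
      map_zero, map_zero, LinearMap.zero_apply, LinearMap.zero_apply, add_zero]
  · have key := orth_Wt (ψ := (X.pair (a + 1)).compl₂ (X.lef (a + 1) ^ t))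
      (A := X.gr (a + 1) w) (A' := X.gr (a + 1) w) (T := X.act (a + 1)) (T' := X.act (a + 1))
      (tr := X.tr) (κ := fun g => (X.cyc g : Ω) ^ (w : ℤ)) (μ := χ) (ν := ν)
      (fun g x hx => X.act_gr (a + 1) w g x hx) (fun g x hx => X.act_gr (a + 1) w g x hx)
      (fun g x _ y _ => by
        show X.pair (a + 1) (X.act (a + 1) g x) ((X.lef (a + 1) ^ t) y) =
          (X.cyc g : Ω) ^ (w : ℤ) *
            X.pair (a + 1) x ((X.lef (a + 1) ^ t) (X.act (a + 1) (X.tr g) y))
        rw [pair_act_lef, show (n : ℤ) - ((a + 1 : ℕ) : ℤ) - t = w by push_cast [ht]; ring])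
      ?_ hu.1 h1 hu.2 h2
    · exact key
    · intro hc
      apply hν
      funext g
      unfold dualAt
      rw [hc]
      simp only
      rw [X.tr_tr, X.cyc_tr, Units.val_inv_eq_inv_val, inv_zpow, ← mul_assoc,
        mul_inv_cancel₀ (zpow_ne_zero _ (Units.ne_zero _)), one_mul]

end weights

section degeneration

variable (X : SpecialFibre.{u, v} Ω Γ n q)

lemma single_mem_cobound' (a : ℕ) (w : ℤ) {v : X.H (a + 2)} (hv : v ∈ X.gr (a + 2) (w - 2))
    (hR : X.res (a + 2) v = 0) :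
    (Pi.single (a + 1) (X.gys (a + 1) v) : X.C) ∈
      X.coboundaries (-((a : ℤ) + 1)) (w + 2 * ((a : ℤ) + 1)) := by
  classical
  refine ⟨Pi.single (a + 2) v, ?_, ?_⟩
  · apply X.single_mem
    · refine ⟨?_, ?_⟩
      · rw [show -((a : ℤ) + 1) - 1 = -((a : ℤ) + 2) by ring, abs_neg,
          abs_of_nonneg (by positivity)]
        push_cast
        rfl
      · refine ⟨(a : ℤ) + 2, by push_cast; ring⟩
    · rwa [show w + 2 * ((a : ℤ) + 1) + (-((a : ℤ) + 1) - 1) - ((a + 2 : ℕ) : ℤ) = w - 2 by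
        push_cast; ring]
  · funext b
    rw [X.diff_apply, show -((a : ℤ) + 1) - 1 + 1 = -((a : ℤ) + 1) by ring, X.cut_neg]
    by_cases hc : InColumn ((a : ℤ) + 1) b
    · rw [X.cut_of hc, Pi.add_apply, X.gysC_apply]
      have hab : a + 1 ≤ b := by
        have := hc.1
        rw [abs_of_nonneg (by positivity)] at this
        exact_mod_cast this
      obtain ⟨b', rfl⟩ : ∃ b', b = b' + 1 := ⟨b - 1, by omega⟩
      rw [X.resC_succ]
      by_cases hb : b' = a
      · subst hb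
        rw [Pi.single_eq_of_ne (by omega), map_zero, zero_add, Pi.single_eq_same,
          Pi.single_eq_same]
      · by_cases hb2 : b' = a + 2
        · subst hb2
          rw [Pi.single_eq_same, hR, zero_add, Pi.single_eq_of_ne (by omega), map_zero,
            Pi.single_eq_of_ne (by omega)]
        · rw [Pi.single_eq_of_ne hb2, map_zero, zero_add, Pi.single_eq_of_ne (by omega), map_zero,
            Pi.single_eq_of_ne (by omega)]
    · rw [X.cut_of_not hc, Pi.single_eq_of_ne]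
      rintro rfl
      exact hc (inCol_succ_self a)

/-- The reduction to the critical classes. -/
lemma nInj_of (a m : ℕ) {w : ℤ} (hw : w = n - m - ((a : ℤ) + 1))
    (hK : ∀ y ∈ X.gr a w, X.gys a (X.res a y) = 0 → (Pi.single (a + 1) (X.res a y) : X.C) ∈
        X.coboundaries (-((a : ℤ) + 1)) (w + 2 * ((a : ℤ) + 1))) :
    NInj X.diff X.tot ((a : ℤ) + 1) (-m) := by
  rintro x ⟨hx1, hx2⟩
  obtain ⟨y, hy, hyx⟩ := hx2
  rw [show (a : ℤ) + 1 - 1 = a by ring] at hy hyx
  have hyE : y ∈ X.E₁ a w := X.mem_E₁_cast rfl (by rw [hw]; ring) hy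
  have hx0 : X.diff (-((a : ℤ) + 1)) (X.diff a y) = 0 := by
    rw [hyx]
    exact hx1.2
  obtain ⟨h1, y', hy', h2⟩ := reduce X a w hyE hx0
  have hya : y a ∈ X.gr a w := by
    have := (hyE a).1
    rwa [show w + (a : ℤ) - a = w by ring] at this
  have h3 := hK (y a) hya h1
  rw [X.bd_eq, show (n : ℤ) + -(m : ℤ) - -((a : ℤ) + 1) = w + 2 * ((a : ℤ) + 1) by
    rw [hw]; ring, ← hyx, h2]
  exact Submodule.add_mem _ ⟨y', hy', rfl⟩ h3

/-- Injectivity of `N ^ (a + 1)` in the degree `n - m`. -/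
lemma nInj_good (A : DivisorClasses X) (a m : ℕ)
    (hA : ∀ w : ℕ, 2 ≤ w → a + 1 + w + m = n → ∀ y ∈ X.gr a w, X.gys a (X.res a y) = 0 →
      ∃ v ∈ X.gr (a + 2) ((w : ℤ) - 2), X.res (a + 2) v = 0 ∧ X.res a y = X.gys (a + 1) v) :
    NInj X.diff X.tot ((a : ℤ) + 1) (-m) := by
  apply nInj_of X a m rfl
  intro y hy hG
  rcases lt_or_ge ((n : ℤ) - m - ((a : ℤ) + 1)) 0 with hw' | hw'
  · rw [X.gr_eq_bot a _ (Or.inl hw'), Submodule.mem_bot] at hy
    rw [hy, map_zero, Pi.single_zero]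
    exact Submodule.zero_mem _
  obtain ⟨w, hw2⟩ := Int.eq_ofNat_of_zero_le hw'
  rw [hw2] at hy ⊢
  rcases lt_or_ge w 2 with hw | hw
  · have h0 : X.res a y = 0 := by
      interval_cases w
      · exact crit0 A a (by simpa using hy) hG
      · exact crit1 A a (by simpa using hy) hG
    rw [h0, Pi.single_zero]
    exact Submodule.zero_mem _
  · obtain ⟨v, hv, hR, hvy⟩ := hA w hw (by omega) y hy hG
    rw [hvy]
    exact single_mem_cobound' X a w hv hR

end degeneration

end Pool.Agent.U865.LS
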