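import Pool.Agent.X302.MW.Defs

/-!
# Strata with Lefschetz, divisorial and Gysin classes
-/

namespace Pool.Agent.U865.LS

universe u v

open Module Pool.Agent.Y143 Pool.Agent.X302.MW

variable {Ω : Type u} [Field Ω] [CharZero Ω] {Γ : Type} {n q : ℕ}

/-- The part of character `χ` (simultaneous generalized eigenspace of the operators in `Γ`) of
`H^w(Y^(a+1))`. -/
def Part (X : SpecialFibre.{u, v} Ω Γ n q) (a : ℕ) (w : ℤ) (χ : Γ → Ω) : Submodule Ω (X.H a) :=
  X.gr a w ⊓ Wt (X.act a) χ

/-- The primitive classes in `H^3(Y^(a+2))` which are sums of a restriction from `Y^(a+1)` and of a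
Gysin image from `Y^(a+3)` and which are killed by the restriction to `Y^(a+3)` and by the Gysin map
to `Y^(a+1)`. -/
def critThird (X : SpecialFibre.{u, v} Ω Γ n q) (a : ℕ) : Submodule Ω (X.H (a + 1)) :=
  ((X.gr a 3).map (X.res a) ⊔ (X.gr (a + 2) 1).map (X.gys (a + 1))) ⊓
    LinearMap.ker (X.res (a + 1)) ⊓ LinearMap.ker (X.gys a) ⊓ kerPow (X.lef (a + 1)) (n - a - 3)

/-- The form `B(x, L^(d-3) y)` on `H^3(Y^(a+2))`, `d = dim Y^(a+2)`, is nondegenerate on the space
`critThird` of primitive classes. This is so by Weil's theorem if the third cohomology of `Y^(a+1)`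
and `Y^(a+2)` comes from curves: if it is given by abelian varieties, if the restrictions and Gysin
maps come from homomorphisms and if the form on the primitive part is, up to the sign, the form of a
polarization. -/
def WeilThird (X : SpecialFibre.{u, v} Ω Γ n q) (a : ℕ) : Prop :=
  ∀ x ∈ critThird X a, (∀ y ∈ critThird X a,
    ev (X.pair (a + 1)) x (pw (X.lef (a + 1)) (n - a - 4) y) = 0) → x = 0

/-- The controlled pairs of a degree `w` and a character `χ` for the restriction
`ρ : H^w(Y^(a+1)) → H^w(Y^(a+2))` form the smallest set with the following properties.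

* The pairs with `w ≤ 1` are controlled.
* `(2, χ)` is controlled if the restriction of every class of character `χ` in `H^2(Y^(a+1))` is the
  restriction of a linear combination of classes of divisors.
* `(3, χ)` is controlled if `WeilThird` holds.
* `(w, χ)` is controlled if every class in `H^w(Y^(a+2))` whose character is dual to `χ` is the sum
  of a restriction from `Y^(a+1)` and of a Gysin image from `Y^(a+3)`.
* If `(w, χ)` is controlled and the restriction of every class of character `χ` times the cyclotomic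
  character in `H^(w+2)(Y^(a+1))` is the restriction of `L x + τ z` with `x` in `H^w(Y^(a+1))` of
  character `χ` and `z` in `H^w(Y^(a+2))`, then `w + 2` and this character are controlled. -/
inductive Controlled {X : SpecialFibre.{u, v} Ω Γ n q} (A : DivisorClasses X) (a : ℕ) :
    ℕ → (Γ → Ω) → Prop
  | low (w : ℕ) (χ : Γ → Ω) (h : w ≤ 1) : Controlled A a w χ
  | divisors (χ : Γ → Ω)
      (h : ∀ y ∈ Part X a 2 χ, ∃ x ∈ Submodule.span Ω (A.A1 a : Set (X.H a)),
        X.res a y = X.res a x) : Controlled A a 2 χ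
  | third (χ : Γ → Ω) (h : WeilThird X a) : Controlled A a 3 χ
  | extend (w : ℕ) (χ : Γ → Ω)
      (h : ∀ u ∈ Part X (a + 1) w (dualAt X w χ), ∃ x ∈ X.gr a w,
        ∃ z ∈ X.gr (a + 2) ((w : ℤ) - 2), u = X.res a x + X.gys (a + 1) z) : Controlled A a w χ
  | lefschetz (w : ℕ) (χ : Γ → Ω) (hw : Controlled A a w χ)
      (h : ∀ y ∈ Part X a ((w : ℤ) + 2) (fun g => (X.cyc g : Ω) * χ g), ∃ x ∈ Part X a w χ,
        ∃ z ∈ X.gr (a + 1) w, X.res a y = X.res a (X.lef a x + X.gys a z)) :
      Controlled A a (w + 2) (fun g => (X.cyc g : Ω) * χ g)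

/-- The cohomology of the strata `Y^(a+1)` in the degrees `w ≥ 2` with `a + 1 + w ≤ m` and
`a + 1 + w` of the same parity as `m` is small: `H^2` is spanned by the classes of divisors, and for
`w ≥ 3` the dimension of `H^w` is not bigger than the one of `H^(w-2)` or `w = 3` and `WeilThird`
holds. -/
def SmallUpTo {X : SpecialFibre.{u, v} Ω Γ n q} (A : DivisorClasses X) (m : ℕ) : Prop :=
  ∀ a w t : ℕ, a + 1 + w + 2 * t = m →
    (w = 2 → X.gr a 2 ≤ Submodule.span Ω (A.A1 a : Set (X.H a))) ∧
    (3 ≤ w → finrank Ω (X.gr a w) ≤ finrank Ω (X.gr a ((w : ℤ) - 2)) ∨ (w = 3 ∧ WeilThird X a))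

/-- The operator `N` has a monodromy filtration, and for every monodromy filtration `M` of `N` and
all `b` with `|b| ≥ i` the subspaces `M_b` and `M_(b-1)` are stable under the Frobenius `Φ` and all
eigenvalues of `Φ` on `M_b / M_(b-1)` are `q`-Weil numbers of weight `k + b`. -/
def PureFrom {V : Type v} [AddCommGroup V] [Module Ω V] (q : ℕ) (k : ℤ) (Φ N : Module.End Ω V)
    (i : ℕ) : Prop :=
  (∃ M : ℤ → Submodule Ω V, IsMonodromyFiltration N M) ∧
    ∀ M : ℤ → Submodule Ω V, IsMonodromyFiltration N M → ∀ b : ℤ, (i : ℤ) ≤ |b| →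
      (∀ x ∈ M b, Φ x ∈ M b) ∧ (∀ x ∈ M (b - 1), Φ x ∈ M (b - 1)) ∧
        ∀ (α : Ω) (x : V), x ∈ M b → x ∉ M (b - 1) → Φ x - α • x ∈ M (b - 1) →
          IsWeilNumber q (k + b) α

end Pool.Agent.U865.LS
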