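import Pool.Agent.U865.LS.Cmp

/-!
# Purity from Lefschetz, divisorial and Gysin classes
-/

namespace Pool.Agent.U865.LS

universe u v

open Module Pool.Agent.Y143 Pool.Agent.X302.MW

variable {Ω : Type u} [Field Ω] [CharZero Ω] [IsAlgClosed Ω] {Γ : Type} {n q : ℕ}

section small

variable {X : SpecialFibre.{u, v} Ω Γ n q} (A : DivisorClasses X)

omit [IsAlgClosed Ω] in
/-- If `H^w` is not bigger than `H^(w-2)`, then `L` is surjective. -/
lemma lef_onto {a w : ℕ} (hn : a + 1 + w ≤ n) (hw : 3 ≤ w)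
    (h : finrank Ω (X.gr a w) ≤ finrank Ω (X.gr a ((w : ℤ) - 2))) {y : X.H a}
    (hy : y ∈ X.gr a w) : ∃ x ∈ X.gr a ((w : ℤ) - 2), X.lef a x = y := by
  have hle : (X.gr a ((w : ℤ) - 2)).map (X.lef a) ≤ X.gr a w := by
    rintro _ ⟨x, hx, rfl⟩
    exact gr_cast X (by ring) (X.lef_gr a _ _ hx)
  have hinj : Function.Injective ((X.lef a).domRestrict (X.gr a ((w : ℤ) - 2))) := by
    rw [← LinearMap.ker_eq_bot, LinearMap.ker_eq_bot']
    intro x hx
    apply Subtype.ext
    obtain ⟨m, rfl⟩ : ∃ m, w = m + 2 := ⟨w - 2, by omega⟩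
    exact lef_pow_inj X a 1 m (by omega) (gr_cast X (by push_cast; ring) x.2)
      (by rw [pow_one]; exact hx)
  have h1 : finrank Ω ((X.gr a ((w : ℤ) - 2)).map (X.lef a)) =
      finrank Ω (X.gr a ((w : ℤ) - 2)) := by
    rw [← LinearMap.range_domRestrict]
    exact LinearMap.finrank_range_of_inj hinj
  have h2 := Submodule.eq_of_le_of_finrank_le hle (by rw [h1]; exact h)
  rw [← h2] at hy
  exact hy

/-- If the cohomology is small, everything is controlled. -/
lemma controlled_of_small {a m : ℕ} (hm : m ≤ n) (h : SmallUpTo A m) :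
    ∀ w t : ℕ, a + 1 + w + 2 * t = m → ∀ χ : Γ → Ω, Controlled A a w χ := by
  intro w
  induction w using Nat.strong_induction_on with
  | _ w ih =>
    intro t h2 χ
    rcases Nat.lt_or_ge w 2 with hw | hw
    · exact Controlled.low w χ (by omega)
    rcases Nat.eq_or_lt_of_le hw with hw2 | hw2
    · subst hw2
      exact Controlled.divisors χ fun y hy => ⟨y, (h a 2 t h2).1 rfl hy.1, rfl⟩
    rcases (h a w t h2).2 hw2 with hd | ⟨rfl, hW⟩
    · obtain ⟨m', rfl⟩ : ∃ m, w = m + 2 := ⟨w - 2, by omega⟩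
      have hχ : χ = fun g => (X.cyc g : Ω) * ((X.cyc g : Ω)⁻¹ * χ g) := by
        funext g
        rw [mul_inv_cancel_left₀ (Units.ne_zero _)]
      rw [hχ]
      refine Controlled.lefschetz m' (fun g => (X.cyc g : Ω)⁻¹ * χ g)
        (ih m' (by omega) (t + 1) (by omega) _) fun y hy => ?_
      have hy' : y ∈ X.gr a ((m' + 2 : ℕ) : ℤ) := gr_cast X (by push_cast; ring) hy.1
      obtain ⟨x, hx, hxy⟩ := lef_onto (by omega) hw2 hd hy'
      have hx' : x ∈ X.gr a m' := gr_cast X (by push_cast; ring) hx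
      refine ⟨prj (X.act a) (comm_act X a) (fun g => (X.cyc g : Ω)⁻¹ * χ g) x,
        ⟨prj_stable (comm_act X a) (fun g x hx => X.act_gr a m' g x hx) _ hx', prj_mem _ _ _⟩, 0,
        Submodule.zero_mem _, ?_⟩
      have h3 := prj_equiv (comm_act X a) (comm_act X a) (c := fun g => (X.cyc g : Ω))
        (fun g => Units.ne_zero _) (X.lef a) (fun g x => X.lef_act a g x)
        (fun g => (X.cyc g : Ω)⁻¹ * χ g) x
      rw [map_zero, add_zero, ← h3, hxy, prj_of_mem _ hy.2]
    · exact Controlled.third χ hW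

end small

variable (X : Degeneration.{u, v} Ω Γ n q) (A : DivisorClasses X.toSpecialFibre)

/-- The isomorphisms on the `E_2` term. -/
lemma iso_at (k : ℕ) (hk : k ≤ 2 * n) (a : ℕ)
    (hA : ∀ w : ℕ, 2 ≤ w → a + 1 + w = min k (2 * n - k) → ∀ χ, Controlled A a w χ) :
    NInj X.diff X.tot ((a : ℤ) + 1) ((k : ℤ) - n) ∧
      NSurj X.diff X.tot ((a : ℤ) + 1) ((k : ℤ) - n) := by
  rcases le_total k n with h | h
  · obtain ⟨m, hm⟩ : ∃ m, n = k + m := ⟨n - k, by omega⟩
    have h1 := nInj_good X.toSpecialFibre A a m (fun w hw hw2 y hy hG =>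
      crit_good A (by omega) (hA w hw (by omega)) hy hG)
    have h2 := X.lefDual.good_of_inj X.lefComplex X.lefComplex ((a : ℤ) + 1) (by omega) _ h1 h1
    rw [show (k : ℤ) - n = -m by push_cast [hm]; ring]
    exact ⟨h2.inj, h2.surj⟩
  · obtain ⟨m, hm⟩ : ∃ m, k = n + m := ⟨k - n, by omega⟩
    have h1 := nInj_good X.toSpecialFibre A a m (fun w hw hw2 y hy hG =>
      crit_good A (by omega) (hA w hw (by omega)) hy hG)
    have h2 := X.lefDual.good_of_inj X.lefComplex X.lefComplex ((a : ℤ) + 1) (by omega) _ h1 h1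
    have h3 := X.lefDual.good_pos X.lefComplex X.lefComplex ((a : ℤ) + 1) (by omega) m h2
    rw [show (k : ℤ) - n = m by push_cast [hm]; ring]
    exact ⟨h3.inj, h3.surj⟩

/-- **Purity in the outer degrees.** -/
theorem pureFrom (k : ℕ) (hk : k ≤ 2 * n) (i : ℕ)
    (hA : ∀ a w : ℕ, i ≤ a + 1 → 2 ≤ w → a + 1 + w = min k (2 * n - k) → ∀ χ,
      Controlled A a w χ) :
    PureFrom q k (X.actV k X.frob) (X.N k) i := by
  have h : ∀ a : ℕ, i ≤ a → 1 ≤ a → NInj X.diff X.tot a ((k : ℤ) - n) ∧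
      NSurj X.diff X.tot a ((k : ℤ) - n) := by
    intro a h1 h2
    obtain ⟨b, rfl⟩ : ∃ b, a = b + 1 := ⟨a - 1, by omega⟩
    have := iso_at X A k hk b (fun w hw hw2 => hA b w h1 hw hw2)
    push_cast
    exact this
  exact pureFrom_of X.toSemistableModel k i (fun a h1 h2 => (h a h1 h2).1)
    (fun a h1 h2 => (h a h1 h2).2)

include A in
/-- The outermost graded pieces are always pure. -/
theorem pureFrom_outer (k : ℕ) (hk : k ≤ 2 * n) :
    PureFrom q k (X.actV k X.frob) (X.N k) (min k (2 * n - k) - 1) :=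
  pureFrom X A k hk _ fun a w h1 h2 h3 => by omega

/-- Purity if the cohomology of the strata is small. -/
theorem mwPure_of_small (k : ℕ) (hk : k ≤ 2 * n) (h : SmallUpTo A (min k (2 * n - k))) :
    IsMWPure q k (X.actV k X.frob) (X.N k) :=
  (pureFrom X A k hk 0 fun a w _ h2 h3 =>
    controlled_of_small A (by omega) h w 0 (by omega)).isMWPure

end Pool.Agent.U865.LS
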