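import Pool.Agent.U865.LS.Crit

/-!
# Critical classes of degree three, and controlled characters
-/

namespace Pool.Agent.U865.LS

universe u v

open Module Pool.Agent.Y143 Pool.Agent.X302.MW

variable {Ω : Type u} [Field Ω] [CharZero Ω] {Γ : Type} {n q : ℕ}

section fibre

variable (X : SpecialFibre.{u, v} Ω Γ n q)

lemma diff_single (a : ℕ) (y : X.H a) :
    X.diff a (Pi.single a y) = (Pi.single (a + 1) (X.res a y) : X.C) := by
  funext b
  rw [X.diff_apply]
  by_cases hc : InColumn ((a : ℤ) + 1) b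
  · rw [X.cut_of hc, Pi.add_apply, X.gysC_apply]
    have hab : a + 1 ≤ b := by
      have := hc.1
      rw [abs_of_nonneg (by positivity)] at this
      exact_mod_cast this
    obtain ⟨b', rfl⟩ : ∃ b', b = b' + 1 := ⟨b - 1, by omega⟩
    rw [X.resC_succ, Pi.single_eq_of_ne (i := a) (i' := b' + 1 + 1) (by omega), map_zero, add_zero]
    by_cases hb : b' = a
    · subst hb
      rw [Pi.single_eq_same, Pi.single_eq_same]
    · rw [Pi.single_eq_of_ne (by omega), map_zero, Pi.single_eq_of_ne (by omega)]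
  · rw [X.cut_of_not hc, Pi.single_eq_of_ne]
    rintro rfl
    exact hc (inCol_succ_self a)

/-- The Gysin image of the outermost component of a cocycle in a negative column vanishes. -/
lemma gys_of_cocycle (a : ℕ) {w : ℤ} {x : X.C} (hx : x ∈ X.E₁ (-((a : ℤ) + 1)) w)
    (h : X.diff (-((a : ℤ) + 1)) x = 0) : X.gys a (x (a + 1)) = 0 := by
  have h2 := congrFun h a
  rw [X.diff_apply, show -((a : ℤ) + 1) + 1 = -(a : ℤ) by ring, X.cut_neg, X.cut_of, Pi.add_apply,
    X.gysC_apply] at h2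
  · cases a with
    | zero =>
      rw [X.resC_zero, zero_add] at h2
      exact h2
    | succ a =>
      have h3 : x a = 0 := by
        apply (hx a).2
        rintro ⟨h4, -⟩
        rw [abs_neg, abs_of_nonneg (by positivity)] at h4
        push_cast at h4
        omega
      rw [X.resC_succ, h3, map_zero, zero_add] at h2
      exact h2
  · refine ⟨?_, ⟨0, by ring⟩⟩
    rw [Nat.abs_cast]

end fibre

section third

variable {X : Degeneration.{u, v} Ω Γ n q} (A : DivisorClasses X.toSpecialFibre)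
include A

/-- Classes of degree one on `Y^(a+2)` with restriction zero which are orthogonal to the restrictions
have Gysin image zero; here the hard Lefschetz theorem for the generic fibre is used. -/
lemma gys_harm_one (a : ℕ) (hn : a + 2 ≤ n) {h : X.H (a + 1)} (hh : h ∈ X.gr (a + 1) 1)
    (hR : X.res (a + 1) h = 0)
    (ho : ∀ u ∈ X.gr a 1, X.pair (a + 1) h ((X.lef (a + 1) ^ (n - a - 2)) (X.res a u)) = 0) :
    X.gys a h = 0 := by
  obtain ⟨m, hm⟩ : ∃ m, n = a + 2 + m := ⟨n - (a + 2), by omega⟩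
  have h1 := nInj_good X.toSpecialFibre A a m (fun w hw hw2 => by omega)
  have h2 := (X.lefDual.good_of_inj X.lefComplex X.lefComplex ((a : ℤ) + 1) (by omega) _ h1 h1).surj
  have hx : (Pi.single (a + 1) h : X.C) ∈ Zc X.diff X.tot ((a : ℤ) + 1) (-m) := by
    refine ⟨?_, ?_⟩
    · have h3 : (Pi.single (a + 1) h : X.C) ∈ X.E₁ ((a : ℤ) + 1) 1 := by
        apply X.single_mem (inCol_succ_self a)
        rwa [show (1 : ℤ) + ((a : ℤ) + 1) - ((a + 1 : ℕ) : ℤ) = 1 by push_cast; ring]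
      exact X.mem_E₁_cast rfl (by push_cast [hm]; ring) h3
    · have h3 := diff_single X.toSpecialFibre (a + 1) h
      rw [hR, Pi.single_zero] at h3
      push_cast at h3
      exact h3
  obtain ⟨x', hx', c, ⟨y, hy, rfl⟩, hxc⟩ := Submodule.mem_sup.1 (h2 hx)
  rw [show (a : ℤ) + 1 - 1 = a by ring] at hy hxc
  have hyE : y ∈ X.E₁ a 1 := X.mem_E₁_cast rfl (by push_cast [hm]; ring) hy
  have hy0 : y a ∈ X.gr a 1 := by
    have := (hyE a).1
    rwa [show (1 : ℤ) + (a : ℤ) - a = 1 by ring] at this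
  have hy2 : y (a + 1 + 1) = 0 := by
    have h3 := (hyE (a + 1 + 1)).1
    rw [X.gr_eq_bot (a + 1 + 1) _ (Or.inl (by push_cast; omega)), Submodule.mem_bot] at h3
    exact h3
  have hG' : X.gys a (x' (a + 1)) = 0 := gys_of_cocycle X.toSpecialFibre a hx'.1 hx'.2
  have hcomp : h = x' (a + 1) + X.res a (y a) := by
    have h3 := congrFun hxc (a + 1)
    rw [Pi.add_apply, Pi.single_eq_same, X.diff_apply, X.cut_of (inCol_succ_self a), Pi.add_apply,
      X.resC_succ, X.gysC_apply, hy2, map_zero, add_zero] at h3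
    exact h3.symm
  have h0 : X.res a (y a) = 0 := by
    apply A.weil_one a _ hy0
    intro u hu
    have h3 := ho u hu
    rw [hcomp, map_add, LinearMap.add_apply, ← res_lef_pow, ← X.pair_gys, hG', map_zero,
      LinearMap.zero_apply, zero_add, res_lef_pow] at h3
    exact h3
  rw [hcomp, h0, add_zero, hG']

/-- Critical classes of degree three. -/
lemma crit3 (a : ℕ) (hn : a + 4 ≤ n) (hW : WeilThird X.toSpecialFibre a) {y : X.H a}
    (hy : y ∈ X.gr a 3) (hG : X.gys a (X.res a y) = 0) :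
    ∃ v ∈ X.gr (a + 2) 1, X.res (a + 2) v = 0 ∧ X.res a y = X.gys (a + 1) v := by
  obtain ⟨d, hd⟩ : ∃ d, n = a + 4 + d := ⟨n - (a + 4), by omega⟩
  let Q1 : X.H (a + 1) →ₗ[Ω] X.H (a + 1) →ₗ[Ω] Ω :=
    (X.pair (a + 1)).compl₂ (X.lef (a + 1) ^ (d + 2))
  let Q2 : X.H (a + 2) →ₗ[Ω] X.H (a + 2) →ₗ[Ω] Ω :=
    (X.pair (a + 2)).compl₂ (X.lef (a + 2) ^ (d + 1))
  have hQ1 : ∀ x y, Q1 x y = X.pair (a + 1) x ((X.lef (a + 1) ^ (d + 2)) y) := fun x y => rfl
  have hQ2 : ∀ x y, Q2 x y = X.pair (a + 2) x ((X.lef (a + 2) ^ (d + 1)) y) := fun x y => rfl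
  let F1 : Submodule Ω (X.H (a + 1)) := (X.gr a 1).map (X.res a)
  let F2 : Submodule Ω (X.H (a + 2)) := (X.gr (a + 1) 1).map (X.res (a + 1))
  have hF1 : ∀ x ∈ F1, (∀ y ∈ F1, Q1 x y = 0) → x = 0 := by
    rintro _ ⟨x, hx, rfl⟩ h
    apply A.weil_one a x hx
    intro u hu
    rw [show n - a - 2 = d + 2 by omega]
    exact h _ ⟨u, hu, rfl⟩
  have hF2 : ∀ x ∈ F2, (∀ y ∈ F2, Q2 x y = 0) → x = 0 := by
    rintro _ ⟨x, hx, rfl⟩ h
    apply A.weil_one (a + 1) x hx
    intro u hu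
    rw [show n - (a + 1) - 2 = d + 1 by omega]
    exact h _ ⟨u, hu, rfl⟩
  -- the functional vanishes on the kernel of the restriction
  have hker : ∀ k ∈ X.gr (a + 1) 1, X.res (a + 1) k = 0 →
      X.pair (a + 1) (X.res a y) ((X.lef (a + 1) ^ (d + 1)) k) = 0 := by
    intro k hk hRk
    obtain ⟨_, ⟨u0, hu0, rfl⟩, hf⟩ := exists_repr Q1 F1 hF1 (Q1 k)
    set h := k - X.res a u0 with hh
    have hh0 : h ∈ X.gr (a + 1) 1 := Submodule.sub_mem _ hk (X.res_gr a 1 _ hu0)
    have hRh : X.res (a + 1) h = 0 := by rw [hh, map_sub, hRk, X.res_res, sub_zero]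
    have hg : X.gys a h = 0 := by
      apply gys_harm_one A a (by omega) hh0 hRh
      intro u hu
      have h1 := hf _ (show X.res a u ∈ F1 from ⟨u, hu, rfl⟩)
      rw [hQ1, hQ1] at h1
      rw [show n - a - 2 = d + 2 by omega, hh, map_sub, LinearMap.sub_apply, h1, sub_self]
    have hk' : k = X.res a u0 + h := by rw [hh]; abel
    rw [hk', map_add, map_add, ← res_lef_pow, ← X.pair_gys, hG, map_zero, LinearMap.zero_apply,
      X.pair_res, gys_lef_pow, hg, map_zero, map_zero, add_zero]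
  obtain ⟨φ', hφ'⟩ := exists_factor ((X.res (a + 1)).domRestrict (X.gr (a + 1) 1))
    ((X.pair (a + 1) (X.res a y) ∘ₗ (X.lef (a + 1) ^ (d + 1))).domRestrict (X.gr (a + 1) 1))
    (fun k hk => hker k k.2 hk)
  obtain ⟨_, ⟨b0, hb0, rfl⟩, hv⟩ := exists_repr Q2 F2 hF2 φ'
  have hv' : ∀ b ∈ X.gr (a + 1) 1, X.pair (a + 2) (X.res (a + 1) b0)
      ((X.lef (a + 2) ^ (d + 1)) (X.res (a + 1) b)) =
        X.pair (a + 1) (X.res a y) ((X.lef (a + 1) ^ (d + 1)) b) := by
    intro b hb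
    rw [← hQ2, hv _ ⟨b, hb, rfl⟩]
    exact hφ' ⟨b, hb⟩
  refine ⟨X.res (a + 1) b0, X.res_gr (a + 1) 1 _ hb0, X.res_res (a + 1) b0, ?_⟩
  set z := X.res a y - X.gys (a + 1) (X.res (a + 1) b0) with hz
  have hGz : X.gys a z = 0 := by rw [hz, map_sub, hG, X.gys_gys, sub_zero]
  have hRz : X.res (a + 1) z = 0 := by
    rw [hz, map_sub, X.res_res, zero_sub]
    have := X.res_gys (a + 1) (X.res (a + 1) b0)
    rw [X.res_res, map_zero, add_zero] at this
    rw [this, neg_zero]
  have hz3 : z ∈ X.gr (a + 1) 3 := Submodule.sub_mem _ (X.res_gr a 3 _ hy)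
    (gr_cast _ (by norm_num) (X.gys_gr (a + 1) _ _ (X.res_gr (a + 1) 1 _ hb0)))
  have hLz : (X.lef (a + 1) ^ (d + 1)) z = 0 := by
    apply eq_zero_of_orth X.toSpecialFibre (a + 1)
      (lef_pow_gr X.toSpecialFibre (a + 1) (d + 1) hz3)
    intro b hb
    have hb1 : b ∈ X.gr (a + 1) 1 := gr_cast _ (by push_cast [hd]; ring) hb
    rw [lef_pow_pair, hz, map_sub, LinearMap.sub_apply, ← hv' b hb1, X.pair_gys, res_lef_pow,
      sub_self]
  have hU : z ∈ critThird X.toSpecialFibre a := by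
    refine ⟨⟨⟨?_, hRz⟩, hGz⟩, ?_⟩
    · apply Submodule.sub_mem
      · exact Submodule.mem_sup_left ⟨y, hy, rfl⟩
      · exact Submodule.mem_sup_right ⟨_, X.res_gr (a + 1) 1 _ hb0, rfl⟩
    · show z ∈ kerPow (X.lef (a + 1)) (n - a - 3)
      rw [show n - a - 3 = d + 1 by omega]
      exact hLz
  have hz0 : z = 0 := by
    apply hW z hU
    rintro z' ⟨⟨⟨hz', -⟩, -⟩, -⟩
    obtain ⟨_, ⟨y', hy', rfl⟩, _, ⟨v', hv'', rfl⟩, rfl⟩ := Submodule.mem_sup.1 hz'
    show X.pair (a + 1) z ((X.lef (a + 1) ^ (n - a - 4)) (X.res a y' + X.gys (a + 1) v')) = 0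
    rw [map_add, map_add, ← res_lef_pow, ← gys_lef_pow, ← X.pair_gys, hGz, ← X.pair_res, hRz,
      map_zero, map_zero, LinearMap.zero_apply, LinearMap.zero_apply, add_zero]
  exact sub_eq_zero.1 hz0

end third

section classes

variable [IsAlgClosed Ω] {X : Degeneration.{u, v} Ω Γ n q} (A : DivisorClasses X.toSpecialFibre)
include A

/-- Critical classes of a controlled character are Gysin images. -/
lemma crit_controlled {a w : ℕ} {χ : Γ → Ω} (h : Controlled A a w χ) :
    a + 1 + w ≤ n → ∀ y ∈ Part X.toSpecialFibre a w χ, X.gys a (X.res a y) = 0 →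
      ∃ v ∈ X.gr (a + 2) ((w : ℤ) - 2), X.res (a + 2) v = 0 ∧ X.res a y = X.gys (a + 1) v := by
  induction h with
  | low w χ hw =>
    intro _ y hy hG
    have h0 : X.res a y = 0 := by
      interval_cases w
      · exact crit0 A a (by simpa using hy.1) hG
      · exact crit1 A a (by simpa using hy.1) hG
    exact ⟨0, Submodule.zero_mem _, map_zero _, by rw [h0, map_zero]⟩
  | divisors χ h =>
    intro hn y hy hG
    obtain ⟨x, hx, hxy⟩ := h y hy
    rw [hxy] at hG ⊢
    obtain ⟨v, hv, hR, hv2⟩ := crit2 A a (by omega) hx hG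
    exact ⟨v, gr_cast X.toSpecialFibre (by norm_num) hv, hR, hv2⟩
  | third χ h =>
    intro hn y hy hG
    obtain ⟨v, hv, hR, hv2⟩ := crit3 A a (by omega) h hy.1 hG
    exact ⟨v, gr_cast _ (by norm_num) hv, hR, hv2⟩
  | extend w χ h =>
    intro hn y hy hG
    have h0 := eq_zero_of_extend X.toSpecialFibre hn h ⟨X.res_gr a _ _ hy.1, res_Wt X.toSpecialFibre a hy.2⟩ (X.res_res a y) hG
    exact ⟨0, Submodule.zero_mem _, map_zero _, by rw [h0, map_zero]⟩
  | lefschetz w χ _ h ih =>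
    intro hn y hy hG
    obtain ⟨x, hx, z, hz, hxz⟩ := h y ⟨gr_cast X.toSpecialFibre (by push_cast; ring) hy.1, hy.2⟩
    have hz' : X.res a (X.gys a z) = - X.gys (a + 1) (X.res (a + 1) z) :=
      add_eq_zero_iff_eq_neg.1 (X.res_gys a z)
    have hL : (X.lef a ^ 1) (X.gys a (X.res a x)) = 0 := by
      rw [hxz, map_add, map_add, gys_res_gys, add_zero, X.res_lef, X.gys_lef] at hG
      rw [pow_one]
      exact hG
    have h0 : X.gys a (X.res a x) = 0 := by
      refine lef_pow_inj X.toSpecialFibre a 1 (w + 2) (by omega) ?_ hL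
      exact gr_cast X.toSpecialFibre (by push_cast; ring) (X.gys_gr a _ _ (X.res_gr a _ _ hx.1))
    obtain ⟨v, hv, hR, hvx⟩ := ih (by omega) x hx h0
    refine ⟨X.lef (a + 2) v - X.res (a + 1) z, Submodule.sub_mem _ ?_ ?_, ?_, ?_⟩
    · exact gr_cast X.toSpecialFibre (by push_cast; ring) (X.lef_gr (a + 2) _ _ hv)
    · exact gr_cast X.toSpecialFibre (by push_cast; ring) (X.res_gr (a + 1) _ _ hz)
    · rw [map_sub, X.res_lef, hR, map_zero, X.res_res, sub_zero]
    · rw [hxz, map_add, X.res_lef, hvx, hz', map_sub, X.gys_lef, sub_eq_add_neg]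

/-- If all characters are controlled, all critical classes are Gysin images. -/
lemma crit_good {a w : ℕ} (hn : a + 1 + w ≤ n) (h : ∀ χ, Controlled A a w χ) {y : X.H a}
    (hy : y ∈ X.gr a w) (hG : X.gys a (X.res a y) = 0) :
    ∃ v ∈ X.gr (a + 2) ((w : ℤ) - 2), X.res (a + 2) v = 0 ∧ X.res a y = X.gys (a + 1) v := by
  let S : Submodule Ω (X.H a) := ((X.gr (a + 2) ((w : ℤ) - 2) ⊓ LinearMap.ker (X.res (a + 2))).map
    (X.gys (a + 1))).comap (X.res a)
  have hS : y ∈ S := by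
    apply mem_of_prj_mem (comm_act X.toSpecialFibre a)
    intro χ
    have h1 := prj_stable (comm_act X.toSpecialFibre a) (fun g x hx => X.act_gr a w g x hx) χ hy
    have h2 := prj_mem (comm_act X.toSpecialFibre a) χ y
    have h3 := prj_equiv (comm_act X.toSpecialFibre a) (comm_act X.toSpecialFibre a) (c := fun g => (X.cyc g : Ω))
      (fun g => Units.ne_zero _) (X.gys a ∘ₗ X.res a)
      (fun g x => by
        show X.act a g (X.gys a (X.res a x)) = (X.cyc g : Ω) • X.gys a (X.res a (X.act a g x))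
        rw [X.gys_act, X.res_act]) χ y
    have h4 : X.gys a (X.res a (prj (X.act a) (comm_act X.toSpecialFibre a) χ y)) = 0 := by
      rw [LinearMap.comp_apply, hG, map_zero] at h3
      exact h3.symm
    obtain ⟨v, hv, hR, hvy⟩ := crit_controlled A (h χ) hn _ ⟨h1, h2⟩ h4
    exact ⟨v, ⟨hv, hR⟩, hvy.symm⟩
  obtain ⟨v, ⟨hv, hR⟩, hvy⟩ := hS
  exact ⟨v, hv, hR, hvy.symm⟩

end classes

end Pool.Agent.U865.LS
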